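import Pool.Agent.Y110.KW.Ker

/-!
Parabolic subgroups, the kernel formula, and graph products.
-/

namespace Pool.Agent.Y110.KW

open Monoid Pool.Agent.Y483 CategoryTheory DirectSum

variable {V : Type} {P : V → Type} [∀ v, Group (P v)]

/-- The subgroup generated by the images of the factors `P v`, `v ∈ S`. -/
def para (R : Set (CoprodI P)) (S : Set V) : Subgroup (Quo R) := ⨆ v ∈ S, (fac R v).range

variable {R : Set (CoprodI P)}

theorem fac_mem_para {S : Set V} {v : V} (hv : v ∈ S) (x : P v) : fac R v x ∈ para R S :=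
  (le_iSup₂_of_le v hv le_rfl : (fac R v).range ≤ para R S) ⟨x, rfl⟩

theorem ret_range (hR : IsLocal R) (S : Set V) : (ret hR S).range = para R S := by
  apply le_antisymm
  · rintro _ ⟨g, rfl⟩
    have h : (para R S).comap (ret hR S) = ⊤ := by
      apply eq_top_of_fac
      intro v x
      change ret hR S (fac R v x) ∈ para R S
      by_cases hv : v ∈ S
      · rw [ret_fac_mem hR hv]
        exact fac_mem_para hv x
      · rw [ret_fac_notMem hR hv]
        exact (para R S).one_mem
    have : g ∈ (para R S).comap (ret hR S) := by rw [h]; trivial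
    exact this
  · apply iSup₂_le
    rintro v hv _ ⟨x, rfl⟩
    exact ⟨fac R v x, ret_fac_mem hR hv x⟩

variable {E : GrpCat.{0} ⥤ ModuleCat.{0} ℚ}

/-- The inclusion of the parabolic subgroup. -/
def paraIncl (R : Set (CoprodI P)) (S : Set V) : GrpCat.of (para R S) ⟶ GrpCat.of (Quo R) :=
  GrpCat.ofHom (para R S).subtype

theorem imSum_le (α : Fam E) (J : Set ℕ) {G K : Type} [Group G] [Group K] (f : G →* K) :
    imSum α J (GrpCat.ofHom f) ≤ kerSum α J (GrpCat.of K) := by
  rintro _ ⟨y, hy, rfl⟩
  exact mem_kerSum_map α J f hy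

/-- **Kernel formula.** -/
theorem kernel_formula (hR : IsLocal R) (α : Fam E) (J : Set ℕ) :
    kerSum α J (GrpCat.of (Quo R)) =
      ⨆ (σ : Finset V) (_ : IsCl R σ), imSum α J (paraIncl R (σ : Set V)) := by
  apply le_antisymm
  · intro x hx
    set K : Submodule ℚ (hsum J (GrpCat.of (Quo R))) :=
      ⨆ (σ : Finset V) (_ : IsCl R σ), imSum α J (paraIncl R (σ : Set V)) with hKdef
    change x ∈ K
    refine kernel_le hR α J K ?_ x hx
    intro σ hσ y hy
    let e : (ret hR (σ : Set V)).range →* para R (σ : Set V) :=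
      Subgroup.inclusion (ret_range hR _).le
    have h1 : hjMap J (parIncl hR (σ : Set V)) y =
        hjMap J (para R (σ : Set V)).subtype (hjMap J e y) := by
      rw [← hjMap_comp]
      rfl
    rw [h1]
    have h2 : imSum α J (paraIncl R (σ : Set V)) ≤ K :=
      le_iSup₂_of_le σ hσ le_rfl
    exact h2 ⟨hjMap J e y, mem_kerSum_map α J e hy, rfl⟩
  · exact iSup₂_le fun σ _ => imSum_le α J _

/-! ### Graph products -/

/-- The commutation relations of a graph product. -/
def graphRel (Λ : SimpleGraph V) : Set (CoprodI P) :=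
  {r | ∃ (u v : V) (_ : Λ.Adj u v) (x : P u) (y : P v), 
    r = CoprodI.of x * CoprodI.of y * (CoprodI.of x)⁻¹ * (CoprodI.of y)⁻¹}

theorem graphRel_local (Λ : SimpleGraph V) : IsLocal (graphRel (P := P) Λ) := by
  rintro _ ⟨u, v, h, x, y, rfl⟩ S
  by_cases hu : u ∈ S
  · by_cases hv : v ∈ S
    · left
      simp only [map_mul, map_inv, keep_of_mem hu, keep_of_mem hv]
    · right
      simp only [map_mul, map_inv, keep_of_mem hu, keep_of_notMem hv]
      group
  · right
    simp only [map_mul, map_inv, keep_of_notMem hu]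
    group

theorem graphRel_linked (Λ : SimpleGraph V) {a b : V} (hab : a ≠ b)
    (h : Linked (graphRel (P := P) Λ) a b) : Λ.Adj a b := by
  obtain ⟨_, ⟨u, v, huv, x, y, rfl⟩, ha, hb⟩ := h
  have key : ∀ c : V, Involves (CoprodI.of x * CoprodI.of y * (CoprodI.of x)⁻¹ *
      (CoprodI.of y)⁻¹ : CoprodI P) c → c = u ∨ c = v := by
    intro c hc
    by_contra hcon
    push Not at hcon
    apply hc
    have hu : u ∈ ({c}ᶜ : Set V) := by simpa using hcon.1.symm
    have hv : v ∈ ({c}ᶜ : Set V) := by simpa using hcon.2.symm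
    simp only [map_mul, map_inv, keep_of_mem hu, keep_of_mem hv]
  rcases key a ha with rfl | rfl
  · rcases key b hb with rfl | rfl
    · exact absurd rfl hab
    · exact huv
  · rcases key b hb with rfl | rfl
    · exact huv.symm
    · exact absurd rfl hab

/-- The graph product. -/
abbrev GP (P : V → Type) [∀ v, Group (P v)] (Λ : SimpleGraph V) : Type :=
  Quo (graphRel (P := P) Λ)

theorem gp_comm (Λ : SimpleGraph V) {u v : V} (h : Λ.Adj u v) (x : P u) (y : P v) :
    Commute (fac (graphRel Λ) u x) (fac (graphRel Λ) v y) := by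
  have h1 : (QuotientGroup.mk (CoprodI.of x * CoprodI.of y * (CoprodI.of x)⁻¹ *
      (CoprodI.of y)⁻¹ : CoprodI P) : GP P Λ) = 1 :=
    mk_rel ⟨u, v, h, x, y, rfl⟩
  have h2 : fac (graphRel Λ) u x * fac (graphRel Λ) v y * (fac (graphRel Λ) u x)⁻¹ *
      (fac (graphRel Λ) v y)⁻¹ = 1 := h1
  rw [mul_inv_eq_one, mul_inv_eq_iff_eq_mul] at h2
  exact h2

/-- For a clique `σ` of the graph, the homomorphism of the direct product of the groups `P v`,
`v ∈ σ`, to the graph product. -/
noncomputable def cliqueHom (Λ : SimpleGraph V) (σ : Finset V)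
    (hσ : Λ.IsClique (σ : Set V)) : (∀ v : σ, P v) →* GP P Λ :=
  MonoidHom.noncommPiCoprod (fun v : σ => fac (graphRel Λ) (v : V)) (by
    intro u v huv x y
    exact gp_comm Λ (hσ u.2 v.2 (fun h => huv (Subtype.ext h))) x y)

open Classical in
/-- The projection of the graph product to a factor. -/
noncomputable def proj (Λ : SimpleGraph V) (v : V) : GP P Λ →* P v :=
  quoLift (CoprodI.lift fun w => if h : w = v then h ▸ MonoidHom.id (P w) else 1) (by
    rintro _ ⟨a, b, hab, x, y, rfl⟩
    simp only [map_mul, map_inv, CoprodI.lift_of]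
    have hne : a ≠ b := hab.ne
    by_cases ha : a = v
    · have hb : b ≠ v := fun h => hne (ha.trans h.symm)
      rw [dif_neg hb]
      simp
    · rw [dif_neg ha]
      simp)

theorem proj_fac_self (Λ : SimpleGraph V) (v : V) (x : P v) :
    proj Λ v (fac (graphRel Λ) v x) = x := by
  classical
  unfold proj
  rw [quoLift_fac, CoprodI.lift_of, dif_pos rfl]
  rfl

theorem proj_fac_ne (Λ : SimpleGraph V) {v w : V} (h : w ≠ v) (x : P w) :
    proj Λ v (fac (graphRel Λ) w x) = 1 := by
  classical
  unfold proj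
  rw [quoLift_fac, CoprodI.lift_of, dif_neg h]
  rfl

theorem graph_kernel_formula (Λ : SimpleGraph V) (α : Fam E) (J : Set ℕ) :
    kerSum α J (GrpCat.of (GP P Λ)) =
      ⨆ (σ : Finset V) (hσ : Λ.IsClique (σ : Set V)),
        imSum α J (GrpCat.ofHom (cliqueHom (P := P) Λ σ hσ)) := by
  classical
  apply le_antisymm
  · rw [kernel_formula (graphRel_local Λ)]
    apply iSup₂_le
    intro σ hσ
    have hcl : Λ.IsClique (σ : Set V) := by
      intro a ha b hb hab
      exact graphRel_linked Λ hab (hσ a ha b hb hab)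
    refine le_iSup₂_of_le σ hcl ?_
    rintro _ ⟨y, hy, rfl⟩
    let q : para (graphRel (P := P) Λ) (σ : Set V) →* (∀ v : σ, P v) :=
      MonoidHom.pi fun v => (proj Λ (v : V)).comp (para (graphRel (P := P) Λ) (σ : Set V)).subtype
    have hq : (cliqueHom (P := P) Λ σ hcl).comp q =
        (para (graphRel (P := P) Λ) (σ : Set V)).subtype := by
      -- compare on the generators
      let c : GP P Λ →* GP P Λ := (cliqueHom (P := P) Λ σ hcl).comp
        (MonoidHom.pi fun v : σ => proj Λ (v : V))
      have hc : para (graphRel (P := P) Λ) (σ : Set V) ≤ c.eqLocus (MonoidHom.id _) := by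
        apply iSup₂_le
        rintro v hv _ ⟨x, rfl⟩
        change cliqueHom (P := P) Λ σ hcl (fun w : σ => proj Λ (w : V) (fac (graphRel Λ) v x)) =
          fac (graphRel Λ) v x
        have e : (fun w : σ => proj Λ (w : V) (fac (graphRel Λ) v x)) =
            Pi.mulSingle (⟨v, hv⟩ : σ) x := by
          funext w
          by_cases hw : w = (⟨v, hv⟩ : σ)
          · subst hw
            rw [Pi.mulSingle_eq_same]
            exact proj_fac_self Λ v x
          · rw [Pi.mulSingle_eq_of_ne hw]
            exact proj_fac_ne Λ (fun h => hw (Subtype.ext h.symm)) x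
        rw [e]
        exact MonoidHom.noncommPiCoprod_mulSingle _ _ _
      refine MonoidHom.ext fun g => ?_
      exact hc g.2
    have h1 : hjMap J (para (graphRel (P := P) Λ) (σ : Set V)).subtype y =
        hjMap J (cliqueHom (P := P) Λ σ hcl) (hjMap J q y) := by
      rw [← hjMap_comp, hq]
    change hjMap J (para (graphRel (P := P) Λ) (σ : Set V)).subtype y ∈ _
    rw [h1]
    exact ⟨hjMap J q y, mem_kerSum_map α J q hy, rfl⟩
  · exact iSup₂_le fun σ hσ => imSum_le α J _

end Pool.Agent.Y110.KW
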