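import Pool.Agent.Y110.KW.Pres

/-!
The kernel of an arbitrary natural transformation from rational homology, for quotients of free
products by local relations.
-/

namespace Pool.Agent.Y110.KW

open Monoid Pool.Agent.Y483 CategoryTheory DirectSum Finsupp

section Homology

variable {G : Type} [Group G] {A B C : Subgroup G}

/-- Mayer–Vietoris for homology classes. -/
theorem Amal.mv_class (hA : Amal A B C) (n : ℕ) (x : HQ n G) :
    ∃ (a : HQ n A) (b : HQ n B), x = hqMap A.subtype n a + hqMap B.subtype n b := by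
  obtain ⟨z, hz⟩ := exists_rpr _ n x
  obtain ⟨a, b, ha, hb, hab⟩ := hA.mv n z hz.cyc
  obtain ⟨xa, hxa⟩ := exists_class (A := Rep.trivial ℚ A ℚ) n a ha
  obtain ⟨xb, hxb⟩ := exists_class (A := Rep.trivial ℚ B ℚ) n b hb
  refine ⟨xa, xb, ?_⟩
  have h1 := (hz.sub (hxa.hq A.subtype)).sub (hxb.hq B.subtype)
  have h2 := h1.eq_zero_iff.mpr hab
  rw [sub_sub, sub_eq_zero] at h2
  exact h2

end Homology

variable {V : Type} {P : V → Type} [∀ v, Group (P v)] {R : Set (CoprodI P)}

/-- The homological identity for two indices which are not linked. -/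
theorem id_eq (hR : IsLocal R) {u v : V} (huv : u ≠ v) (hl : ¬ Linked R u v) (n : ℕ)
    (x : HQ n (Quo R)) :
    x = hqMap (ret hR {u}ᶜ) n x + hqMap (ret hR {v}ᶜ) n x -
      hqMap (ret hR ({u}ᶜ ∩ {v}ᶜ)) n x := by
  obtain ⟨a, b, hab⟩ := (amal hR huv hl).mv_class n x
  have hfix : ∀ (S : Set V) (g : Quo R), g ∈ (ret hR S).range → ret hR S g = g := by
    rintro S g ⟨w, rfl⟩
    rw [ret_ret, Set.inter_self]
  have c1 : (ret hR {u}ᶜ).comp (ret hR {u}ᶜ).range.subtype = (ret hR {u}ᶜ).range.subtype := by
    ext1 g; exact hfix _ _ g.2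
  have c2 : (ret hR {u}ᶜ).comp (ret hR {v}ᶜ).range.subtype =
      (ret hR ({u}ᶜ ∩ {v}ᶜ)).comp (ret hR {v}ᶜ).range.subtype := by
    ext1 g
    change ret hR {u}ᶜ g.1 = ret hR ({u}ᶜ ∩ {v}ᶜ) g.1
    rw [← ret_ret, hfix _ _ g.2]
  have c3 : (ret hR {v}ᶜ).comp (ret hR {u}ᶜ).range.subtype =
      (ret hR ({u}ᶜ ∩ {v}ᶜ)).comp (ret hR {u}ᶜ).range.subtype := by
    ext1 g
    change ret hR {v}ᶜ g.1 = ret hR ({u}ᶜ ∩ {v}ᶜ) g.1
    rw [Set.inter_comm, ← ret_ret, hfix _ _ g.2]
  have c4 : (ret hR {v}ᶜ).comp (ret hR {v}ᶜ).range.subtype = (ret hR {v}ᶜ).range.subtype := by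
    ext1 g; exact hfix _ _ g.2
  rw [hab]
  simp only [map_add, ← hqMap_comp]
  rw [c1, c2, c3, c4]
  abel

/-- Every class is preserved by the retraction for some finite set of indices. -/
theorem exists_fin (hR : IsLocal R) (n : ℕ) (x : HQ n (Quo R)) :
    ∃ S : Finset V, hqMap (ret hR (S : Set V)) n x = x := by
  classical
  obtain ⟨z, hz⟩ := exists_rpr _ n x
  have key : ∃ S : Finset V, mp n (ret hR (S : Set V)) LinearMap.id z = z := by
    have mono : ∀ (S S' : Finset V), S ⊆ S' → ∀ y : T n (Quo R) ℚ,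
        mp n (ret hR (S : Set V)) LinearMap.id y = y →
        mp n (ret hR (S' : Set V)) LinearMap.id y = y := by
      intro S S' hST y hy
      rw [← hy, mp_mp]
      have e : (ret hR (S' : Set V) ∘ ret hR (S : Set V)) = ret hR (S : Set V) := by
        funext g
        rw [Function.comp_apply, ret_ret, Set.inter_eq_right.mpr (by exact_mod_cast hST)]
      rw [e, LinearMap.id_comp]
    clear hz
    induction z using Finsupp.induction_linear with
    | zero => exact ⟨∅, map_zero _⟩
    | add a b ha hb =>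
      obtain ⟨S, hS⟩ := ha
      obtain ⟨S', hS'⟩ := hb
      exact ⟨S ∪ S', by rw [map_add, mono S _ Finset.subset_union_left a hS,
        mono S' _ Finset.subset_union_right b hS']⟩
    | single g m =>
      choose S hS using fun i => ret_finite hR (g i)
      refine ⟨Finset.univ.biUnion S, ?_⟩
      rw [mp_single]
      congr 1
      funext i
      exact ret_mono hR (by
        intro w hw
        simp only [Finset.coe_biUnion, Set.mem_iUnion]
        exact ⟨i, by simp, hw⟩) (hS i)
  obtain ⟨S, hS⟩ := key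
  refine ⟨S, ?_⟩
  have h1 := (hz.hq (ret hR (S : Set V))).sub hz
  rw [hS, sub_self] at h1
  rw [← sub_eq_zero, h1.eq_zero_iff]
  exact Submodule.zero_mem _

/-! ### Natural transformations to an arbitrary functor -/

/-- Families of natural transformations `α_j : H_j(G; ℚ) → E(G)`, one for each degree `j`. -/
abbrev Fam (E : GrpCat.{0} ⥤ ModuleCat.{0} ℚ) : Type 1 := ∀ j : ℕ, hq j ⟶ E

variable {E : GrpCat.{0} ⥤ ModuleCat.{0} ℚ}

/-- The sum `⨁_{j ∈ J} H_j(G; ℚ) → E(G)` of the maps `α_j`. -/
noncomputable def total (α : Fam E) (J : Set ℕ) (G : GrpCat.{0}) : hsum J G →ₗ[ℚ] E.obj G :=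
  DirectSum.toModule ℚ J _ fun j : J => ((α j).app G).hom

/-- The kernel of `⨁_{j ∈ J} α_j`. -/
noncomputable def kerSum (α : Fam E) (J : Set ℕ) (G : GrpCat.{0}) : Submodule ℚ (hsum J G) :=
  LinearMap.ker (total α J G)

/-- The image of the kernel for `G` under the map induced by a homomorphism `G → K`. -/
noncomputable def imSum (α : Fam E) (J : Set ℕ) {G K : GrpCat.{0}} (f : G ⟶ K) :
    Submodule ℚ (hsum J K) := (kerSum α J G).map (hsumMap J f)

theorem total_nat (α : Fam E) (J : Set ℕ) {G K : Type} [Group G] [Group K] (f : G →* K)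
    (x : HJ J G) : (E.map (GrpCat.ofHom f)).hom (total α J (GrpCat.of G) x) =
      total α J (GrpCat.of K) (hjMap J f x) := by
  have h : (E.map (GrpCat.ofHom f)).hom ∘ₗ (total α J (GrpCat.of G)) =
      (total α J (GrpCat.of K)) ∘ₗ (hjMap J f) := by
    apply DirectSum.linearMap_ext
    intro j
    apply LinearMap.ext
    intro y
    change (E.map (GrpCat.ofHom f)).hom (total α J (GrpCat.of G)
        (DirectSum.of (fun j : J => HQ j G) j y)) =
      total α J (GrpCat.of K) (hjMap J f (DirectSum.of (fun j : J => HQ j G) j y))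
    rw [hjMap_of]
    have e1 : total α J (GrpCat.of G) (DirectSum.of (fun j : J => HQ j G) j y) =
        ((α j).app (GrpCat.of G)).hom y :=
      DirectSum.toModule_lof ℚ (φ := fun j : J => ((α j).app (GrpCat.of G)).hom) j y
    have e2 : total α J (GrpCat.of K) (DirectSum.of (fun j : J => HQ j K) j (hqMap f j y)) =
        ((α j).app (GrpCat.of K)).hom (hqMap f j y) :=
      DirectSum.toModule_lof ℚ (φ := fun j : J => ((α j).app (GrpCat.of K)).hom) j _
    have h := (α j).naturality (GrpCat.ofHom f)
    exact (congrArg _ e1).trans ((congrArg (fun g => g.hom y) h).symm.trans e2.symm)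
  exact DFunLike.congr_fun h x

theorem mem_kerSum_map (α : Fam E) (J : Set ℕ) {G K : Type} [Group G] [Group K] (f : G →* K)
    {x : HJ J G} (hx : total α J (GrpCat.of G) x = 0) :
    total α J (GrpCat.of K) (hjMap J f x) = 0 := by
  rw [← total_nat, hx, map_zero]

theorem hj_id_eq (hR : IsLocal R) {u v : V} (huv : u ≠ v) (hl : ¬ Linked R u v) (J : Set ℕ)
    (x : HJ J (Quo R)) :
    x = hjMap J (ret hR {u}ᶜ) x + hjMap J (ret hR {v}ᶜ) x -
      hjMap J (ret hR ({u}ᶜ ∩ {v}ᶜ)) x := by
  apply DFunLike.ext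
  intro j
  rw [DirectSum.sub_apply, DirectSum.add_apply, hjMap_apply, hjMap_apply, hjMap_apply]
  exact id_eq hR huv hl j (x j)

theorem hj_ret_ret (hR : IsLocal R) (J : Set ℕ) (S T : Set V) (x : HJ J (Quo R)) :
    hjMap J (ret hR S) (hjMap J (ret hR T) x) = hjMap J (ret hR (S ∩ T)) x := by
  rw [← hjMap_comp]
  congr 2
  refine MonoidHom.ext fun g => ?_
  exact ret_ret hR S T g

theorem hj_exists_fin (hR : IsLocal R) (J : Set ℕ) (x : HJ J (Quo R)) :
    ∃ S : Finset V, hjMap J (ret hR (S : Set V)) x = x := by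
  classical
  choose S hS using fun j : J => exists_fin hR j (x j)
  refine ⟨(DFinsupp.support x).biUnion S, ?_⟩
  apply DFunLike.ext
  intro j
  rw [hjMap_apply]
  by_cases hj : x j = 0
  · rw [hj, map_zero]
  · have hmem : j ∈ DFinsupp.support x := by
      rw [DFinsupp.mem_support_toFun]
      exact hj
    conv_lhs => rw [← hS j]
    rw [← hqMap_comp]
    have e : (ret hR (((DFinsupp.support x).biUnion S : Finset V) : Set V)).comp
        (ret hR (S j : Set V)) = ret hR (S j : Set V) := by
      refine MonoidHom.ext fun g => ?_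
      rw [MonoidHom.comp_apply, ret_ret, Set.inter_eq_right.mpr]
      intro w hw
      simp only [Finset.coe_biUnion, Set.mem_iUnion]
      exact ⟨j, hmem, hw⟩
    rw [e]
    exact hS j

/-- The set `σ` is a clique: any two of its elements are linked. -/
def IsCl (R : Set (CoprodI P)) (σ : Finset V) : Prop :=
  ∀ u ∈ σ, ∀ v ∈ σ, u ≠ v → Linked R u v

/-- The inclusion of the subgroup supported on `S`. -/
noncomputable def parIncl (hR : IsLocal R) (S : Set V) : (ret hR S).range →* Quo R :=
  (ret hR S).range.subtype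

/-- The kernel formula, in terms of the images of the retractions. -/
theorem kernel_le (hR : IsLocal R) (α : Fam E) (J : Set ℕ)
    (K : Submodule ℚ (hsum J (GrpCat.of (Quo R))))
    (hK : ∀ σ : Finset V, IsCl R σ →
      ∀ y : HJ J (ret hR (σ : Set V)).range,
        total α J (GrpCat.of (ret hR (σ : Set V)).range) y = 0 →
        hjMap J (parIncl hR (σ : Set V)) y ∈ K)
    (x : HJ J (Quo R)) (hx : total α J (GrpCat.of (Quo R)) x = 0) : x ∈ K := by
  classical
  obtain ⟨S, hS⟩ := hj_exists_fin hR J x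
  obtain ⟨n, hn⟩ : ∃ n, S.card = n := ⟨_, rfl⟩
  induction n using Nat.strong_induction_on generalizing S x with
  | _ n ih =>
    by_cases hcl : IsCl R S
    · have h1 := hK S hcl (hjMap J (ret hR (S : Set V)).rangeRestrict x)
        (mem_kerSum_map α J _ hx)
      rw [← hjMap_comp] at h1
      have e : (parIncl hR (S : Set V)).comp (ret hR (S : Set V)).rangeRestrict =
        ret hR (S : Set V) := rfl
      rw [e, hS] at h1
      exact h1
    · unfold IsCl at hcl
      push Not at hcl
      obtain ⟨u, hu, v, hv, huv, hl⟩ := hcl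
      have hmem : ∀ T : Finset V, T ⊂ S → hjMap J (ret hR (T : Set V)) x ∈ K := by
        intro T hT
        refine ih T.card (by rw [← hn]; exact Finset.card_lt_card hT) _
          (mem_kerSum_map α J _ hx) T ?_ rfl
        rw [hj_ret_ret, Set.inter_self]
      have e1 : hjMap J (ret hR {u}ᶜ) x = hjMap J (ret hR ((S.erase u : Finset V) : Set V)) x := by
        conv_lhs => rw [← hS, hj_ret_ret]
        congr 2
        congr 1
        ext w
        simp
        tauto
      have e2 : hjMap J (ret hR {v}ᶜ) x = hjMap J (ret hR ((S.erase v : Finset V) : Set V)) x := by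
        conv_lhs => rw [← hS, hj_ret_ret]
        congr 2
        congr 1
        ext w
        simp
        tauto
      have e3 : hjMap J (ret hR ({u}ᶜ ∩ {v}ᶜ)) x =
          hjMap J (ret hR (((S.erase u).erase v : Finset V) : Set V)) x := by
        conv_lhs => rw [← hS, hj_ret_ret]
        congr 2
        congr 1
        ext w
        simp
        tauto
      rw [hj_id_eq hR huv hl J x, e1, e2, e3]
      apply Submodule.sub_mem
      · apply Submodule.add_mem
        · exact hmem _ (Finset.erase_ssubset hu)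
        · exact hmem _ (Finset.erase_ssubset hv)
      · exact hmem _ (lt_of_le_of_lt (Finset.erase_subset _ _) (Finset.erase_ssubset hu))

end Pool.Agent.Y110.KW
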