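import Pool.Agent.Y110.KW.Shap

/-!
Amalgamated products in which the amalgamated subgroup is a retract: every rational homology class
is a sum of classes from the two factors.
-/

namespace Pool.Agent.Y110.KW

open Finsupp Pool.Agent.Y483

variable {G : Type} [Group G]

/-- `G` is the amalgamated product of its subgroups `A` and `B` along `C`, and `C` is a retract. -/
structure Amal (A B C : Subgroup G) : Prop where
  le_left : C ≤ A
  le_right : C ≤ B
  gen : A ⊔ B = ⊤
  univ : ∀ (H : Type) [Group H] (f : A →* H) (g : B →* H),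
    (∀ (c : G) (hc : c ∈ C), f ⟨c, le_left hc⟩ = g ⟨c, le_right hc⟩) →
    ∃ h : G →* H, (∀ a : A, h a = f a) ∧ (∀ b : B, h b = g b)
  retr : ∃ r : G →* C, ∀ c : C, r c = c

/-- The projection `ℚ[G/C] → ℚ[G/A]`. -/
noncomputable def pr {C A : Subgroup G} (h : C ≤ A) : ((G ⧸ C) →₀ ℚ) →ₗ[ℚ] ((G ⧸ A) →₀ ℚ) :=
  Finsupp.lmapDomain ℚ ℚ (Subgroup.quotientMapOfLE h)

theorem pr_single {C A : Subgroup G} (h : C ≤ A) (g : G) (m : ℚ) :
    pr h (single (QuotientGroup.mk g) m) = single (QuotientGroup.mk g) m := by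
  simp [pr]

theorem coset_ext {V : Type} [AddCommGroup V] [Module ℚ V] {C : Subgroup G}
    {f g : ((G ⧸ C) →₀ ℚ) →ₗ[ℚ] V}
    (h : ∀ x : G, f (single (QuotientGroup.mk x) 1) = g (single (QuotientGroup.mk x) 1)) :
    f = g := by
  apply Finsupp.lhom_ext'
  intro i
  obtain ⟨x, rfl⟩ := QuotientGroup.mk_surjective i
  apply LinearMap.ext_ring
  exact h x

theorem pr_perm {C A : Subgroup G} (h : C ≤ A) (g : G) (y : (G ⧸ C) →₀ ℚ) :
    pr h (perm C g y) = perm A g (pr h y) := by
  have e : (pr h) ∘ₗ (perm C g) = (perm A g) ∘ₗ (pr h) := by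
    apply coset_ext
    intro x
    rw [LinearMap.comp_apply, LinearMap.comp_apply, perm_single, pr_single, perm_single]
    exact pr_single h (g * x) 1
  exact DFunLike.congr_fun e y

theorem aug_pr {C A : Subgroup G} (h : C ≤ A) : (aug (G ⧸ A)) ∘ₗ (pr h) = aug (G ⧸ C) := by
  apply coset_ext
  intro x
  rw [LinearMap.comp_apply, pr_single, aug_single, aug_single]

theorem aug_perm (A : Subgroup G) (g : G) (y : (G ⧸ A) →₀ ℚ) :
    aug (G ⧸ A) (perm A g y) = aug (G ⧸ A) y := by
  have e : (aug (G ⧸ A)) ∘ₗ (perm A g) = aug (G ⧸ A) := by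
    apply Finsupp.lhom_ext'
    intro i
    apply LinearMap.ext_ring
    simp [perm_single]
  exact DFunLike.congr_fun e y

/-- The pairing with a function. -/
noncomputable def ev {I : Type} (c : I → ℚ) : (I →₀ ℚ) →ₗ[ℚ] ℚ := Finsupp.linearCombination ℚ c

@[simp] theorem ev_single {I : Type} (c : I → ℚ) (i : I) (m : ℚ) : ev c (single i m) = m * c i := by
  simp [ev]

variable {A B C : Subgroup G}

theorem Amal.split (hA : Amal A B C) (c : G ⧸ C → ℚ) :
    ∃ (a : G ⧸ A → ℚ) (b : G ⧸ B → ℚ), ∀ x : G, c (QuotientGroup.mk x) =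
      a (QuotientGroup.mk x) + b (QuotientGroup.mk x) := by
  let fA : A →* Equiv.Perm (G × ℚ) :=
    { toFun := fun a =>
        { toFun := fun p => (p.1 * (a : G)⁻¹, p.2)
          invFun := fun p => (p.1 * (a : G), p.2)
          left_inv := fun p => by simp
          right_inv := fun p => by simp }
      map_one' := by ext p <;> simp
      map_mul' := fun a a' => by ext p <;> simp [mul_assoc] }
  let fB : B →* Equiv.Perm (G × ℚ) :=
    { toFun := fun b =>
        { toFun := fun p => (p.1 * (b : G)⁻¹,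
            p.2 + c (QuotientGroup.mk (p.1 * (b : G)⁻¹)) - c (QuotientGroup.mk p.1))
          invFun := fun p => (p.1 * (b : G),
            p.2 + c (QuotientGroup.mk (p.1 * (b : G))) - c (QuotientGroup.mk p.1))
          left_inv := fun p => by
            apply Prod.ext
            · simp
            · simp
          right_inv := fun p => by
            apply Prod.ext
            · simp
            · simp }
      map_one' := by ext p <;> simp
      map_mul' := fun a a' => by
        ext p
        · simp [mul_assoc]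
        · simp [mul_assoc]
          ring }
  obtain ⟨h, h1, h2⟩ := hA.univ _ fA fB (by
    intro g hg
    ext p
    · rfl
    · change p.2 = p.2 + c (QuotientGroup.mk (p.1 * g⁻¹)) - c (QuotientGroup.mk p.1)
      have : (QuotientGroup.mk (p.1 * g⁻¹) : G ⧸ C) = QuotientGroup.mk p.1 := by
        rw [QuotientGroup.eq]
        simpa using hg
      rw [this]; ring)
  have hfst : ∀ (g : G) (p : G × ℚ), (h g p).1 = p.1 * g⁻¹ := by
    let K : Subgroup G :=
      { carrier := {g | ∀ p : G × ℚ, (h g p).1 = p.1 * g⁻¹}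
        mul_mem' := fun {a b} ha hb p => by
          rw [map_mul, Equiv.Perm.mul_apply, ha, hb, mul_inv_rev, mul_assoc]
        one_mem' := fun p => by rw [map_one, Equiv.Perm.one_apply, inv_one, mul_one]
        inv_mem' := fun {a} ha p => by
          have h3 := ha (h a⁻¹ p)
          rw [← Equiv.Perm.mul_apply, ← map_mul, mul_inv_cancel, map_one,
            Equiv.Perm.one_apply] at h3
          rw [h3]
          group }
    have hK : K = ⊤ := by
      rw [eq_top_iff, ← hA.gen, sup_le_iff]
      constructor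
      · intro a ha p
        rw [show a = ((⟨a, ha⟩ : A) : G) from rfl, h1]
        rfl
      · intro b hb p
        rw [show b = ((⟨b, hb⟩ : B) : G) from rfl, h2]
        rfl
    intro g p
    have : g ∈ K := by rw [hK]; trivial
    exact this p
  let m : G → ℚ := fun x => (h x⁻¹ (1, 0)).2
  have hm : ∀ x : G, h x⁻¹ (1, 0) = (x, m x) := fun x => by
    apply Prod.ext
    · rw [hfst]; simp
    · rfl
  have hma : ∀ (x a : G), a ∈ A → m (x * a) = m x := by
    intro x a ha
    have h3 := hm (x * a)
    rw [mul_inv_rev, map_mul, Equiv.Perm.mul_apply, hm,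
      show a⁻¹ = ((⟨a⁻¹, A.inv_mem ha⟩ : A) : G) from rfl, h1] at h3
    exact (congrArg Prod.snd h3).symm
  have hmb : ∀ (x b : G), b ∈ B → m (x * b) = m x + c (QuotientGroup.mk (x * b)) -
      c (QuotientGroup.mk x) := by
    intro x b hb
    have h3 := hm (x * b)
    rw [mul_inv_rev, map_mul, Equiv.Perm.mul_apply, hm,
      show b⁻¹ = ((⟨b⁻¹, B.inv_mem hb⟩ : B) : G) from rfl, h2] at h3
    have h4 := (congrArg Prod.snd h3).symm
    change m (x * b) = m x + c (QuotientGroup.mk (x * (b⁻¹)⁻¹)) - c (QuotientGroup.mk x) at h4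
    rwa [inv_inv] at h4
  refine ⟨Quotient.lift m ?_, Quotient.lift (fun x => c (QuotientGroup.mk x) - m x) ?_, ?_⟩
  · intro x y hxy
    have h3 : x⁻¹ * y ∈ A := QuotientGroup.leftRel_apply.mp hxy
    have := hma x _ h3
    rw [mul_inv_cancel_left] at this
    exact this.symm
  · intro x y hxy
    have h3 : x⁻¹ * y ∈ B := QuotientGroup.leftRel_apply.mp hxy
    have := hmb x _ h3
    rw [mul_inv_cancel_left] at this
    change c (QuotientGroup.mk x) - m x = c (QuotientGroup.mk y) - m y
    rw [this]; ring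
  · intro x
    change c (QuotientGroup.mk x) = m x + (c (QuotientGroup.mk x) - m x)
    ring

theorem Amal.injective (hA : Amal A B C) (y : (G ⧸ C) →₀ ℚ) (h1 : pr hA.le_left y = 0)
    (h2 : pr hA.le_right y = 0) : y = 0 := by
  classical
  ext i
  obtain ⟨a, b, hab⟩ := hA.split (fun j => if j = i then (1 : ℚ) else 0)
  have h3 : ev (fun j => if j = i then (1 : ℚ) else 0) =
      (ev a) ∘ₗ (pr hA.le_left) + (ev b) ∘ₗ (pr hA.le_right) := by
    apply coset_ext
    intro x
    rw [LinearMap.add_apply, LinearMap.comp_apply, LinearMap.comp_apply, pr_single, pr_single,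
      ev_single, ev_single, ev_single, hab]
    ring
  have h4 := DFunLike.congr_fun h3 y
  rw [LinearMap.add_apply, LinearMap.comp_apply, LinearMap.comp_apply, h1, h2, map_zero, map_zero,
    add_zero] at h4
  have h5 : ev (fun j => if j = i then (1 : ℚ) else 0) = (Finsupp.lapply i : _ →ₗ[ℚ] ℚ) := by
    apply Finsupp.lhom_ext'
    intro j
    apply LinearMap.ext_ring
    rw [LinearMap.comp_apply, LinearMap.comp_apply, lsingle_apply, ev_single, lapply_apply,
      single_apply, one_mul]
  rw [h5] at h4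
  exact h4

theorem Amal.connect (hA : Amal A B C) (g : G) : ∃ y : (G ⧸ C) →₀ ℚ,
    pr hA.le_left y = single (QuotientGroup.mk g) 1 - single (QuotientGroup.mk 1) 1 ∧
      pr hA.le_right y = 0 := by
  let K : Subgroup G :=
    { carrier := {g | ∃ y : (G ⧸ C) →₀ ℚ,
        pr hA.le_left y = single (QuotientGroup.mk g) 1 - single (QuotientGroup.mk 1) 1 ∧
        pr hA.le_right y = 0}
      mul_mem' := by
        rintro a b ⟨y, hy1, hy2⟩ ⟨w, hw1, hw2⟩
        refine ⟨perm C a w + y, ?_, ?_⟩
        · rw [map_add, pr_perm, hw1, hy1, map_sub, perm_single, perm_single]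
          have e1 : a • (QuotientGroup.mk b : G ⧸ A) = QuotientGroup.mk (a * b) := rfl
          have e2 : a • (QuotientGroup.mk 1 : G ⧸ A) = QuotientGroup.mk a := by
            change QuotientGroup.mk (a * 1) = _
            rw [mul_one]
          rw [e1, e2]
          abel
        · rw [map_add, pr_perm, hw2, hy2, map_zero, add_zero]
      one_mem' := ⟨0, by rw [map_zero, sub_self], map_zero _⟩
      inv_mem' := by
        rintro a ⟨y, hy1, hy2⟩
        refine ⟨- perm C a⁻¹ y, ?_, ?_⟩
        · rw [map_neg, pr_perm, hy1, map_sub, perm_single, perm_single]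
          have e1 : a⁻¹ • (QuotientGroup.mk a : G ⧸ A) = QuotientGroup.mk 1 := by
            change QuotientGroup.mk (a⁻¹ * a) = _
            rw [inv_mul_cancel]
          have e2 : a⁻¹ • (QuotientGroup.mk 1 : G ⧸ A) = QuotientGroup.mk a⁻¹ := by
            change QuotientGroup.mk (a⁻¹ * 1) = _
            rw [mul_one]
          rw [e1, e2]
          abel
        · rw [map_neg, pr_perm, hy2, map_zero, neg_zero] }
  have hK : K = ⊤ := by
    rw [eq_top_iff, ← hA.gen, sup_le_iff]
    constructor
    · intro a ha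
      refine ⟨0, ?_, map_zero _⟩
      rw [map_zero, eq_comm, sub_eq_zero]
      congr 1
      rw [QuotientGroup.eq]
      simpa using ha
    · intro b hb
      refine ⟨single (QuotientGroup.mk b) 1 - single (QuotientGroup.mk 1) 1, ?_, ?_⟩
      · rw [map_sub, pr_single, pr_single]
      · rw [map_sub, pr_single, pr_single, sub_eq_zero]
        congr 1
        rw [QuotientGroup.eq]
        simpa using hb
  have : g ∈ K := by rw [hK]; trivial
  exact this

/-- The section. -/
theorem Amal.section_ (hA : Amal A B C) : ∃ s : ((G ⧸ A) →₀ ℚ) →ₗ[ℚ] ((G ⧸ C) →₀ ℚ),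
    (pr hA.le_left) ∘ₗ s = LinearMap.id - (lsingle (QuotientGroup.mk 1)) ∘ₗ (aug (G ⧸ A)) ∧
      (pr hA.le_right) ∘ₗ s = 0 := by
  choose y hy1 hy2 using fun i : G ⧸ A => hA.connect (rp A i)
  refine ⟨Finsupp.linearCombination ℚ y, ?_, ?_⟩
  · apply Finsupp.lhom_ext'
    intro i
    apply LinearMap.ext_ring
    rw [LinearMap.comp_apply, LinearMap.comp_apply, LinearMap.comp_apply, LinearMap.sub_apply,
      lsingle_apply, Finsupp.linearCombination_single, one_smul, hy1, mk_rp,
      LinearMap.comp_apply, aug_single, LinearMap.id_apply, lsingle_apply]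
  · apply Finsupp.lhom_ext'
    intro i
    apply LinearMap.ext_ring
    rw [LinearMap.comp_apply, LinearMap.comp_apply, LinearMap.comp_apply,
      lsingle_apply, Finsupp.linearCombination_single, one_smul, hy2]
    rfl

theorem mp_id_apply {X : Type} {M N : Type} [AddCommGroup M] [Module ℚ M] [AddCommGroup N]
    [Module ℚ N] (n : ℕ) (φ : M →ₗ[ℚ] N) (z : T n X M) (x : Fin n → X) :
    mp n id φ z x = φ (z x) := by
  classical
  induction z using Finsupp.induction_linear with
  | zero => simp
  | add a b ha hb => simp [ha, hb]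
  | single y m =>
    rw [mp_single, single_apply, single_apply]
    by_cases h : y = x
    · subst h; simp
    · have h' : ¬ (id ∘ y = x) := h
      rw [if_neg h, if_neg h', map_zero]

theorem dd_pr {C A : Subgroup G} (h : C ≤ A) (n : ℕ) (z : T (n + 1) G ((G ⧸ C) →₀ ℚ)) :
    dd (perm A) n (mp (n + 1) id (pr h) z) = mp n id (pr h) (dd (perm C) n z) :=
  dd_mp (ρ := perm C) (τ := perm A) (MonoidHom.id G) (pr h) (fun g m => pr_perm h g m) n z

theorem dd_aug (A : Subgroup G) (n : ℕ) (z : T (n + 1) G ((G ⧸ A) →₀ ℚ)) :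
    dd (tQ G) n (mp (n + 1) id (aug (G ⧸ A)) z) = mp n id (aug (G ⧸ A)) (dd (perm A) n z) :=
  dd_mp (ρ := perm A) (τ := tQ G) (MonoidHom.id G) (aug (G ⧸ A)) (fun g m => aug_perm A g m) n z

theorem from_sub (A : Subgroup G) (n : ℕ) (z : T n G ((G ⧸ A) →₀ ℚ)) (hz : Cyc (perm A) n z) :
    ∃ z' : T n A ℚ, Cyc (tQ A) n z' ∧
      mp n id (aug (G ⧸ A)) z - mp n A.subtype LinearMap.id z' ∈
        LinearMap.range (dd (tQ G) n) := by
  obtain ⟨z', h1, h2⟩ := shapiro A n z hz
  refine ⟨z', h1, ?_⟩
  have h3 := range_mp (ρ := perm A) (τ := tQ G) (MonoidHom.id G) (aug (G ⧸ A))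
    (fun g m => aug_perm A g m) n _ h2
  rw [map_sub] at h3
  have e : mp n (MonoidHom.id G) (aug (G ⧸ A)) (shInc A n z') =
      mp n A.subtype LinearMap.id z' := by
    unfold shInc
    rw [mp_mp]
    congr 2
    apply LinearMap.ext
    intro m
    simp
  rw [e] at h3
  exact h3

/-- **Mayer–Vietoris.** -/
theorem Amal.mv (hA : Amal A B C) (n : ℕ) (z : T n G ℚ) (hz : Cyc (tQ G) n z) :
    ∃ (a : T n A ℚ) (b : T n B ℚ), Cyc (tQ A) n a ∧ Cyc (tQ B) n b ∧
      z - mp n A.subtype LinearMap.id a - mp n B.subtype LinearMap.id b ∈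
        LinearMap.range (dd (tQ G) n) := by
  cases n with
  | zero =>
    refine ⟨mp 0 (fun _ => 1) LinearMap.id z, 0, Cyc.zero _ _, Cyc.zero _ _, ?_⟩
    rw [map_zero, sub_zero, mp_mp]
    have e : mp 0 (A.subtype ∘ fun _ : G => (1 : A)) ((LinearMap.id : ℚ →ₗ[ℚ] ℚ) ∘ₗ LinearMap.id) z
        = z := by
      have : mp 0 (A.subtype ∘ fun _ : G => (1 : A)) ((LinearMap.id : ℚ →ₗ[ℚ] ℚ) ∘ₗ LinearMap.id) =
          (LinearMap.id : T 0 G ℚ →ₗ[ℚ] T 0 G ℚ) := by
        apply T_ext
        intro x m
        rw [mp_single]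
        change single _ m = single _ m
        congr 1
        funext i
        exact i.elim0
      rw [this]; rfl
    rw [e, sub_self]
    exact Submodule.zero_mem _
  | succ m =>
    rw [cyc_succ] at hz
    obtain ⟨s, hs1, hs2⟩ := hA.section_
    obtain ⟨r, hr⟩ := hA.retr
    set zt : T (m + 1) G ((G ⧸ A) →₀ ℚ) := mp (m + 1) id (lsingle (QuotientGroup.mk 1)) z with hzt
    have haug : ∀ (k : ℕ) (I : Type) (i : I) (y : T k G ℚ),
        mp k id (aug I) (mp k id (lsingle i) y) = y := by
      intro k I i y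
      rw [mp_mp]
      have e1 : (aug I) ∘ₗ (lsingle i) = LinearMap.id := by
        apply LinearMap.ext
        intro m
        exact aug_single i m
      rw [e1]
      exact mp_id _ _
    set kA := dd (perm A) m zt with hkA
    have hkA0 : mp m id (aug (G ⧸ A)) kA = 0 := by
      rw [hkA, ← dd_aug, hzt, haug, hz]
    set kC := mp m id s kA with hkC
    have hpA : mp m id (pr hA.le_left) kC = kA := by
      rw [hkC, mp_mp, hs1]
      apply Finsupp.ext
      intro x
      have h1 := DFunLike.congr_fun hkA0 x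
      rw [mp_id_apply] at h1
      change mp m id _ kA x = kA x
      rw [mp_id_apply, LinearMap.sub_apply, LinearMap.comp_apply, h1]
      simp
    have hpB : mp m id (pr hA.le_right) kC = 0 := by
      rw [hkC, mp_mp, hs2]
      apply Finsupp.ext
      intro x
      change mp m id _ kA x = 0
      rw [mp_id_apply, LinearMap.zero_apply]
    have hkcyc : Cyc (perm C) m kC := by
      cases m with
      | zero => exact Cyc.zero _ _
      | succ m =>
        rw [cyc_succ]
        apply Finsupp.ext
        intro x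
        apply hA.injective
        · rw [← mp_id_apply, ← dd_pr, hpA, hkA, dd_dd]
          rfl
        · rw [← mp_id_apply, ← dd_pr, hpB, map_zero]
          rfl
    obtain ⟨c, hc1, w0, hw0⟩ := shapiro C m kC hkcyc
    -- the retraction on chains
    have hR : ∀ (k : ℕ) (y : T (k + 1) G ((G ⧸ C) →₀ ℚ)),
        dd (tQ C) k (mp (k + 1) r (aug (G ⧸ C)) y) = mp k r (aug (G ⧸ C)) (dd (perm C) k y) :=
      fun k y => dd_mp (ρ := perm C) (τ := tQ C) r (aug (G ⧸ C)) (fun g m => aug_perm C g m) k y
    have hRA : ∀ (k : ℕ) (y : T (k + 1) G ((G ⧸ A) →₀ ℚ)),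
        dd (tQ C) k (mp (k + 1) r (aug (G ⧸ A)) y) = mp k r (aug (G ⧸ A)) (dd (perm A) k y) :=
      fun k y => dd_mp (ρ := perm A) (τ := tQ C) r (aug (G ⧸ A)) (fun g m => aug_perm A g m) k y
    have hRc : mp m r (aug (G ⧸ C)) (shInc C m c) = c := by
      unfold shInc
      rw [mp_mp]
      have e1 : (r ∘ C.subtype : C → C) = id := by
        funext x
        exact hr x
      have e2 : (aug (G ⧸ C)) ∘ₗ (lsingle (QuotientGroup.mk 1)) = LinearMap.id := by
        apply LinearMap.ext
        intro q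
        exact aug_single _ q
      have e3 : mp m (r ∘ C.subtype : C → C) ((aug (G ⧸ C)) ∘ₗ (lsingle (QuotientGroup.mk 1))) c =
          mp m id LinearMap.id c := by rw [e1, e2]
      exact e3.trans (mp_id _ _)
    have hRk : mp m r (aug (G ⧸ C)) kC = dd (tQ C) m (mp (m + 1) r (aug (G ⧸ A)) zt) := by
      rw [hRA, ← hkA]
      conv_rhs => rw [← hpA, mp_mp, aug_pr]
      rfl
    have hcb : c = dd (tQ C) m (mp (m + 1) r (aug (G ⧸ A)) zt - mp (m + 1) r (aug (G ⧸ C)) w0) := by
      rw [map_sub, ← hRk, hR, hw0, map_sub, hRc]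
      abel
    set c' := mp (m + 1) r (aug (G ⧸ A)) zt - mp (m + 1) r (aug (G ⧸ C)) w0 with hc'
    set wC := w0 + shInc C (m + 1) c' with hwC
    have hkw : dd (perm C) m wC = kC := by
      rw [hwC, map_add, hw0, dd_shInc, ← hcb]
      abel
    obtain ⟨a, ha1, ha2⟩ := from_sub A (m + 1) (zt - mp (m + 1) id (pr hA.le_left) wC) (by
      rw [cyc_succ, map_sub, ← hkA, dd_pr, hkw, hpA, sub_self])
    obtain ⟨b, hb1, hb2⟩ := from_sub B (m + 1) (mp (m + 1) id (pr hA.le_right) wC) (by
      rw [cyc_succ, dd_pr, hkw, hpB])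
    refine ⟨a, b, ha1, hb1, ?_⟩
    have h5 := Submodule.add_mem _ ha2 hb2
    have e1 : mp (m + 1) id (aug (G ⧸ A)) (mp (m + 1) id (pr hA.le_left) wC) =
        mp (m + 1) id (aug (G ⧸ C)) wC := by
      rw [mp_mp, aug_pr]; rfl
    have e2 : mp (m + 1) id (aug (G ⧸ B)) (mp (m + 1) id (pr hA.le_right) wC) =
        mp (m + 1) id (aug (G ⧸ C)) wC := by
      rw [mp_mp, aug_pr]; rfl
    rw [map_sub, e1, e2, hzt, haug] at h5
    convert h5 using 1
    abel

end Pool.Agent.Y110.KW
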