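import Pool.Agent.Y110.KW.MV

/-!
Quotients of free products by local relations, and their parabolic retractions.
-/

namespace Pool.Agent.Y110.KW

open Monoid Pool.Agent.Y483

variable {V : Type} {P : V → Type} [∀ v, Group (P v)]

open Classical in
/-- The endomorphism of the free product which is the identity on the factors `P v`, `v ∈ S`, and
trivial on the other factors. -/
noncomputable def keep (S : Set V) : CoprodI P →* CoprodI P :=
  CoprodI.lift fun v => if v ∈ S then CoprodI.of else 1

theorem keep_of_mem {S : Set V} {v : V} (h : v ∈ S) (x : P v) :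
    keep S (CoprodI.of x) = CoprodI.of x := by
  classical
  unfold keep
  rw [CoprodI.lift_of]
  simp [h]

theorem keep_of_notMem {S : Set V} {v : V} (h : v ∉ S) (x : P v) :
    keep S (CoprodI.of x) = 1 := by
  classical
  unfold keep
  rw [CoprodI.lift_of]
  simp [h]

theorem keep_inter (S T : Set V) : (keep (P := P) S).comp (keep T) = keep (S ∩ T) := by
  apply CoprodI.ext_hom
  intro v
  ext1 x
  simp only [MonoidHom.comp_apply]
  by_cases hT : v ∈ T
  · rw [keep_of_mem hT]
    by_cases hS : v ∈ S
    · rw [keep_of_mem hS, keep_of_mem (S := S ∩ T) ⟨hS, hT⟩]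
    · rw [keep_of_notMem hS, keep_of_notMem (S := S ∩ T) (fun h => hS h.1)]
  · rw [keep_of_notMem hT, map_one, keep_of_notMem (S := S ∩ T) (fun h => hT h.2)]

theorem keep_univ : keep (P := P) Set.univ = MonoidHom.id _ := by
  apply CoprodI.ext_hom
  intro v
  ext1 x
  exact keep_of_mem (Set.mem_univ v) x

theorem keep_empty : keep (P := P) (∅ : Set V) = 1 := by
  apply CoprodI.ext_hom
  intro v
  ext1 x
  exact keep_of_notMem (Set.notMem_empty v) x

/-- A set of relations in a free product is local if every relation is, by each of the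
endomorphisms `keep S`, either preserved or made trivial. -/
def IsLocal (R : Set (CoprodI P)) : Prop :=
  ∀ r ∈ R, ∀ S : Set V, keep S r = r ∨ keep S r = 1

/-- The relation `r` involves the index `v`. -/
def Involves (r : CoprodI P) (v : V) : Prop := keep {v}ᶜ r ≠ r

/-- Two indices are linked if some relation involves both. -/
def Linked (R : Set (CoprodI P)) (u v : V) : Prop := ∃ r ∈ R, Involves r u ∧ Involves r v

/-- The quotient of the free product by the relations. -/
abbrev Quo (R : Set (CoprodI P)) : Type := CoprodI P ⧸ Subgroup.normalClosure R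

variable {R : Set (CoprodI P)}

/-- The canonical homomorphism of a factor. -/
def fac (R : Set (CoprodI P)) (v : V) : P v →* Quo R :=
  (QuotientGroup.mk' (Subgroup.normalClosure R)).comp CoprodI.of

theorem quo_ext {H : Type} [Monoid H] {f g : Quo R →* H} (h : ∀ v (x : P v), f (fac R v x) = g (fac R v x)) :
    f = g := by
  apply QuotientGroup.monoidHom_ext
  apply CoprodI.ext_hom
  intro v
  ext1 x
  exact h v x

/-- Homomorphisms out of the quotient. -/
def quoLift {H : Type} [Group H] (f : CoprodI P →* H) (hf : ∀ r ∈ R, f r = 1) : Quo R →* H :=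
  QuotientGroup.lift _ f (by
    intro r hr
    have h1 : Subgroup.normalClosure R ≤ f.ker :=
      Subgroup.normalClosure_le_normal (fun r hr => hf r hr)
    exact h1 hr)

theorem quoLift_mk {H : Type} [Group H] (f : CoprodI P →* H) (hf : ∀ r ∈ R, f r = 1)
    (x : CoprodI P) : quoLift f hf (QuotientGroup.mk x : Quo R) = f x := rfl

theorem quoLift_fac {H : Type} [Group H] (f : CoprodI P →* H) (hf : ∀ r ∈ R, f r = 1)
    (v : V) (x : P v) : quoLift f hf (fac R v x) = f (CoprodI.of x) := rfl

theorem mk_rel {r : CoprodI P} (hr : r ∈ R) : (QuotientGroup.mk r : Quo R) = 1 := by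
  rw [QuotientGroup.eq_one_iff]
  exact Subgroup.subset_normalClosure hr

/-- The retraction of the quotient which preserves the factors indexed by `S` and kills the
others. -/
noncomputable def ret (hR : IsLocal R) (S : Set V) : Quo R →* Quo R :=
  quoLift ((QuotientGroup.mk' (Subgroup.normalClosure R)).comp (keep S)) (by
    intro r hr
    change (QuotientGroup.mk (keep S r) : Quo R) = 1
    rcases hR r hr S with h | h
    · rw [h]; exact mk_rel hr
    · rw [h]; rfl)

theorem ret_mk (hR : IsLocal R) (S : Set V) (x : CoprodI P) :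
    ret hR S (QuotientGroup.mk x) = (QuotientGroup.mk (keep S x) : Quo R) := rfl

theorem ret_fac_mem (hR : IsLocal R) {S : Set V} {v : V} (h : v ∈ S) (x : P v) :
    ret hR S (fac R v x) = fac R v x := by
  change (QuotientGroup.mk (keep S (CoprodI.of x)) : Quo R) = _
  rw [keep_of_mem h]; rfl

theorem ret_fac_notMem (hR : IsLocal R) {S : Set V} {v : V} (h : v ∉ S) (x : P v) :
    ret hR S (fac R v x) = 1 := by
  change (QuotientGroup.mk (keep S (CoprodI.of x)) : Quo R) = _
  rw [keep_of_notMem h]; rfl

theorem ret_ret (hR : IsLocal R) (S T : Set V) (g : Quo R) :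
    ret hR S (ret hR T g) = ret hR (S ∩ T) g := by
  have h : (ret hR S).comp (ret hR T) = ret hR (S ∩ T) := by
    apply quo_ext
    intro v x
    rw [MonoidHom.comp_apply]
    by_cases hT : v ∈ T
    · rw [ret_fac_mem hR hT]
      by_cases hS : v ∈ S
      · rw [ret_fac_mem hR hS, ret_fac_mem hR (S := S ∩ T) ⟨hS, hT⟩]
      · rw [ret_fac_notMem hR hS, ret_fac_notMem hR (S := S ∩ T) (fun h => hS h.1)]
    · rw [ret_fac_notMem hR hT, map_one, ret_fac_notMem hR (S := S ∩ T) (fun h => hT h.2)]
  exact DFunLike.congr_fun h g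

theorem ret_univ (hR : IsLocal R) (g : Quo R) : ret hR Set.univ g = g := by
  have h : ret hR Set.univ = MonoidHom.id _ := by
    apply quo_ext
    intro v x
    exact ret_fac_mem hR (Set.mem_univ v) x
  exact DFunLike.congr_fun h g

theorem ret_empty (hR : IsLocal R) (g : Quo R) : ret hR ∅ g = 1 := by
  have h : ret hR ∅ = 1 := by
    apply quo_ext
    intro v x
    exact ret_fac_notMem hR (Set.notMem_empty v) x
  exact DFunLike.congr_fun h g

theorem ret_mono (hR : IsLocal R) {S T : Set V} (h : S ⊆ T) {g : Quo R} (hg : ret hR S g = g) :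
    ret hR T g = g := by
  rw [← hg, ret_ret, Set.inter_eq_right.mpr h]

/-- A subgroup containing all factors is everything. -/
theorem eq_top_of_fac {K : Subgroup (Quo R)} (h : ∀ v (x : P v), fac R v x ∈ K) : K = ⊤ := by
  rw [eq_top_iff]
  intro g hg
  clear hg
  obtain ⟨x, rfl⟩ := QuotientGroup.mk_surjective g
  induction x using CoprodI.induction_on with
  | one => exact K.one_mem
  | of v x => exact h v x
  | mul a b ha hb => exact K.mul_mem ha hb

theorem ret_finite (hR : IsLocal R) (g : Quo R) : ∃ S : Finset V, ret hR (S : Set V) g = g := by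
  classical
  let K : Subgroup (Quo R) :=
    { carrier := {g | ∃ S : Finset V, ret hR (S : Set V) g = g}
      mul_mem' := by
        rintro a b ⟨S, hS⟩ ⟨T, hT⟩
        refine ⟨S ∪ T, ?_⟩
        rw [map_mul, ret_mono hR (S := (S : Set V)) (by simp) hS,
          ret_mono hR (S := (T : Set V)) (by simp) hT]
      one_mem' := ⟨∅, map_one _⟩
      inv_mem' := by
        rintro a ⟨S, hS⟩
        exact ⟨S, by rw [map_inv, hS]⟩ }
  have hK : K = ⊤ := eq_top_of_fac (fun v x => ⟨{v}, ret_fac_mem hR (by simp) x⟩)
  have : g ∈ K := by rw [hK]; trivial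
  exact this

/-- The amalgamated decomposition for two indices which are not linked. -/
theorem amal (hR : IsLocal R) {u v : V} (huv : u ≠ v) (hl : ¬ Linked R u v) :
    Amal (ret hR {u}ᶜ).range (ret hR {v}ᶜ).range (ret hR ({u}ᶜ ∩ {v}ᶜ)).range := by
  classical
  have hfix : ∀ (S : Set V) (g : Quo R), g ∈ (ret hR S).range → ret hR S g = g := by
    rintro S g ⟨w, rfl⟩
    rw [ret_ret, Set.inter_self]
  refine ⟨?_, ?_, ?_, ?_, ?_⟩
  · rintro _ ⟨g, rfl⟩
    rw [← ret_ret]
    exact ⟨_, rfl⟩
  · rintro _ ⟨g, rfl⟩
    rw [Set.inter_comm, ← ret_ret]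
    exact ⟨_, rfl⟩
  · apply eq_top_of_fac
    intro w x
    by_cases hw : w = u
    · subst hw
      apply Subgroup.mem_sup_right
      exact ⟨fac R w x, ret_fac_mem hR (by simpa using huv) x⟩
    · apply Subgroup.mem_sup_left
      exact ⟨fac R w x, ret_fac_mem hR (by simpa using hw) x⟩
  · intro H _ f g hfg
    let fA : Quo R →* H := f.comp (ret hR {u}ᶜ).rangeRestrict
    let gB : Quo R →* H := g.comp (ret hR {v}ᶜ).rangeRestrict
    have hA0 : ∀ (w : V) (x : P w), w = u → fA (fac R w x) = 1 := by
      intro w x hw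
      have : (ret hR {u}ᶜ).rangeRestrict (fac R w x) = 1 :=
        Subtype.ext (ret_fac_notMem hR (by simp [hw]) x)
      change f ((ret hR {u}ᶜ).rangeRestrict (fac R w x)) = 1
      rw [this, map_one]
    have hB0 : ∀ (w : V) (x : P w), w = v → gB (fac R w x) = 1 := by
      intro w x hw
      have : (ret hR {v}ᶜ).rangeRestrict (fac R w x) = 1 :=
        Subtype.ext (ret_fac_notMem hR (by simp [hw]) x)
      change g ((ret hR {v}ᶜ).rangeRestrict (fac R w x)) = 1
      rw [this, map_one]
    have hAB : ∀ (w : V) (x : P w), w ≠ u → w ≠ v → fA (fac R w x) = gB (fac R w x) := by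
      intro w x hwu hwv
      have h1 : fac R w x ∈ (ret hR ({u}ᶜ ∩ {v}ᶜ)).range :=
        ⟨fac R w x, ret_fac_mem hR (by simp [hwu, hwv]) x⟩
      have h2 := hfg _ h1
      have e1 : (ret hR {u}ᶜ).rangeRestrict (fac R w x) = ⟨fac R w x, _, ret_fac_mem hR (by simp [hwu]) x⟩ :=
        Subtype.ext (ret_fac_mem hR (by simp [hwu]) x)
      have e2 : (ret hR {v}ᶜ).rangeRestrict (fac R w x) = ⟨fac R w x, _, ret_fac_mem hR (by simp [hwv]) x⟩ :=
        Subtype.ext (ret_fac_mem hR (by simp [hwv]) x)
      change f ((ret hR {u}ᶜ).rangeRestrict (fac R w x)) =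
        g ((ret hR {v}ᶜ).rangeRestrict (fac R w x))
      rw [e1, e2]
      exact h2
    let ht : CoprodI P →* H := CoprodI.lift fun w =>
      if w = u then gB.comp (fac R w) else fA.comp (fac R w)
    have ht_u : ∀ (w : V) (x : P w), w = u → ht (CoprodI.of x) = gB (fac R w x) := by
      intro w x hw
      change CoprodI.lift _ _ = _
      rw [CoprodI.lift_of, if_pos hw]
      rfl
    have ht_n : ∀ (w : V) (x : P w), w ≠ u → ht (CoprodI.of x) = fA (fac R w x) := by
      intro w x hw
      change CoprodI.lift _ _ = _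
      rw [CoprodI.lift_of, if_neg hw]
      rfl
    have hkA : ∀ x : CoprodI P, ht (keep {u}ᶜ x) = fA (QuotientGroup.mk x) := by
      have h : ht.comp (keep {u}ᶜ) = fA.comp (QuotientGroup.mk' (Subgroup.normalClosure R)) := by
        apply CoprodI.ext_hom
        intro w
        ext1 x
        simp only [MonoidHom.comp_apply]
        by_cases hw : w = u
        · rw [keep_of_notMem (by simp [hw]), map_one]
          exact (hA0 w x hw).symm
        · rw [keep_of_mem (by simp [hw]), ht_n w x hw]
          rfl
      exact fun x => DFunLike.congr_fun h x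
    have hkB : ∀ x : CoprodI P, ht (keep {v}ᶜ x) = gB (QuotientGroup.mk x) := by
      have h : ht.comp (keep {v}ᶜ) = gB.comp (QuotientGroup.mk' (Subgroup.normalClosure R)) := by
        apply CoprodI.ext_hom
        intro w
        ext1 x
        simp only [MonoidHom.comp_apply]
        by_cases hw : w = v
        · rw [keep_of_notMem (by simp [hw]), map_one]
          exact (hB0 w x hw).symm
        · rw [keep_of_mem (by simp [hw])]
          by_cases hu : w = u
          · rw [ht_u w x hu]
            rfl
          · rw [ht_n w x hu, hAB w x hu hw]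
            rfl
      exact fun x => DFunLike.congr_fun h x
    have hrel : ∀ r ∈ R, ht r = 1 := by
      intro r hr
      have h1 : keep {u}ᶜ r = r ∨ keep {v}ᶜ r = r := by
        by_contra hcon
        push Not at hcon
        exact hl ⟨r, hr, hcon.1, hcon.2⟩
      rcases h1 with h1 | h1
      · rw [← h1, hkA, mk_rel hr, map_one]
      · rw [← h1, hkB, mk_rel hr, map_one]
    refine ⟨quoLift ht hrel, ?_, ?_⟩
    · rintro ⟨a, ha⟩
      have h1 := hfix _ _ ha
      obtain ⟨x, rfl⟩ := QuotientGroup.mk_surjective a
      have h2 : quoLift ht hrel (QuotientGroup.mk x) = fA (QuotientGroup.mk x) := by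
        rw [← hkA]
        conv_lhs => rw [← h1]
        rfl
      rw [h2]
      change f _ = f _
      congr 1
      exact Subtype.ext h1
    · rintro ⟨a, ha⟩
      have h1 := hfix _ _ ha
      obtain ⟨x, rfl⟩ := QuotientGroup.mk_surjective a
      have h2 : quoLift ht hrel (QuotientGroup.mk x) = gB (QuotientGroup.mk x) := by
        rw [← hkB]
        conv_lhs => rw [← h1]
        rfl
      rw [h2]
      change g _ = g _
      congr 1
      exact Subtype.ext h1
  · refine ⟨(ret hR ({u}ᶜ ∩ {v}ᶜ)).rangeRestrict, ?_⟩
    rintro ⟨c, hc⟩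
    exact Subtype.ext (hfix _ _ hc)

end Pool.Agent.Y110.KW
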