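import Pool.Agent.Y483.Main

/-!
The surjectivity of `H_n(A; ℚ) → H_n(G; ℚ[G/A])` on the level of chains, for a subgroup `A` of `G`.
-/

namespace Pool.Agent.Y110.KW

open Finsupp Pool.Agent.Y483

variable {G : Type} [Group G]

/-- The permutation representation on `ℚ[G/A]`. -/
noncomputable def perm (A : Subgroup G) : Representation ℚ G ((G ⧸ A) →₀ ℚ) where
  toFun g := Finsupp.lmapDomain ℚ ℚ (fun i : G ⧸ A => g • i)
  map_one' := by
    apply Finsupp.lhom_ext'
    intro i
    apply LinearMap.ext
    intro m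
    simp
  map_mul' g h := by
    apply Finsupp.lhom_ext'
    intro i
    apply LinearMap.ext
    intro m
    simp [mul_smul]

theorem perm_single (A : Subgroup G) (g : G) (i : G ⧸ A) (m : ℚ) :
    perm A g (single i m) = single (g • i) m := by
  simp [perm]

/-- The augmentation. -/
noncomputable def aug (I : Type) : (I →₀ ℚ) →ₗ[ℚ] ℚ := lsum ℚ fun _ => LinearMap.id

@[simp] theorem aug_single {I : Type} (i : I) (m : ℚ) : aug I (single i m) = m := by
  simp [aug]

/-- A representative of a coset. -/
noncomputable def rp (A : Subgroup G) (i : G ⧸ A) : G := Quotient.out i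

theorem mk_rp (A : Subgroup G) (i : G ⧸ A) : (QuotientGroup.mk (rp A i) : G ⧸ A) = i :=
  Quotient.out_eq _

/-- The map of `G` to `A` which is equivariant for the left translations by `A`. -/
noncomputable def toA (A : Subgroup G) (x : G) : A :=
  ⟨x * (Quotient.out (Quotient.mk (QuotientGroup.rightRel A) x))⁻¹, by
    have h : (QuotientGroup.rightRel A) (Quotient.out (Quotient.mk (QuotientGroup.rightRel A) x)) x :=
      Quotient.mk_out x
    rw [QuotientGroup.rightRel_apply] at h
    exact h⟩

theorem toA_mul (A : Subgroup G) (a : A) (x : G) : toA A (a * x) = a * toA A x := by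
  apply Subtype.ext
  have h : Quotient.mk (QuotientGroup.rightRel A) ((a : G) * x) =
      Quotient.mk (QuotientGroup.rightRel A) x := by
    apply Quotient.sound
    change (QuotientGroup.rightRel A) _ _
    rw [QuotientGroup.rightRel_apply]
    have : x * ((a : G) * x)⁻¹ = (a : G)⁻¹ := by group
    rw [this]
    exact A.inv_mem a.2
  change (a : G) * x * (Quotient.out (Quotient.mk (QuotientGroup.rightRel A) ((a : G) * x)))⁻¹ =
    (a : G) * (x * (Quotient.out (Quotient.mk (QuotientGroup.rightRel A) x))⁻¹)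
  rw [h, mul_assoc]

/-- The projection `T n G ℚ[G/A] → T n A ℚ`. -/
noncomputable def shap (A : Subgroup G) (n : ℕ) : T n G ((G ⧸ A) →₀ ℚ) →ₗ[ℚ] T n A ℚ :=
  pp (tQ A) n ∘ₗ
    comb (n + 1) (fun i : G ⧸ A => mp (n + 1) (fun x : G => toA A ((rp A i)⁻¹ * x))
      (LinearMap.id : ℚ →ₗ[ℚ] ℚ)) ∘ₗ sg n

/-- The inclusion `T n A ℚ → T n G ℚ[G/A]`. -/
noncomputable def shInc (A : Subgroup G) (n : ℕ) : T n A ℚ →ₗ[ℚ] T n G ((G ⧸ A) →₀ ℚ) :=
  mp n A.subtype (lsingle (QuotientGroup.mk (1 : G) : G ⧸ A))

theorem dd_shInc (A : Subgroup G) (n : ℕ) (z : T (n + 1) A ℚ) :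
    dd (perm A) n (shInc A (n + 1) z) = shInc A n (dd (tQ A) n z) := by
  refine dd_mp (ρ := tQ A) (τ := perm A) A.subtype _ ?_ n z
  intro g m
  rw [tQ_apply, LinearMap.id_apply, lsingle_apply, perm_single]
  congr 1
  change _ = QuotientGroup.mk ((g : G) * 1)
  rw [mul_one]
  symm
  rw [QuotientGroup.eq]
  simp

theorem shInc_injective (A : Subgroup G) (n : ℕ) : Function.Injective (shInc A n) :=
  mp_injective n A.subtype_injective (Finsupp.single_injective _)

theorem out_smul (A : Subgroup G) (g : G) (i : G ⧸ A) :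
    (rp A i)⁻¹ * g⁻¹ * rp A (g • i) ∈ A := by
  have h1 : (QuotientGroup.mk (g * rp A i) : G ⧸ A) =
      QuotientGroup.mk (rp A (g • i)) := by
    rw [mk_rp]
    conv_rhs => rw [← mk_rp A i]
    rfl
  rw [QuotientGroup.eq] at h1
  have : (g * rp A i)⁻¹ * rp A (g • i) =
      (rp A i)⁻¹ * g⁻¹ * rp A (g • i) := by group
  rwa [this] at h1

/-- Shapiro: a cycle with coefficients in `ℚ[G/A]` comes from `A` up to a boundary. -/
theorem shapiro (A : Subgroup G) (n : ℕ) (z : T n G ((G ⧸ A) →₀ ℚ)) (hz : Cyc (perm A) n z) :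
    ∃ z' : T n A ℚ, Cyc (tQ A) n z' ∧
      z - shInc A n z' ∈ LinearMap.range (dd (perm A) n) := by
  have key := family (perm A) (fun g i => g • i) (fun _ => (LinearMap.id : ℚ →ₗ[ℚ] ℚ))
    (fun g i m => perm_single A g i m) (τ := perm A) (MonoidHom.id G)
    (fun _ x => x) (fun i x => rp A i * (toA A ((rp A i)⁻¹ * x) : G))
    (fun i => lsingle i) (fun g i x => rfl) ?_
    (fun g i m => (perm_single A g i m).symm) n z hz
  · have e1 : pp (perm A) n (comb (n + 1) (fun i => mp (n + 1) (fun x : G => x)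
        (lsingle i : ℚ →ₗ[ℚ] ((G ⧸ A) →₀ ℚ))) (sg n z)) = z := by
      have : comb (n + 1) (fun i => mp (n + 1) (fun x : G => x)
        (lsingle i : ℚ →ₗ[ℚ] ((G ⧸ A) →₀ ℚ))) = LinearMap.id := by
        apply TI_ext
        intro x i m
        rw [comb_single, mp_single]
        rfl
      rw [this, LinearMap.id_apply, pp_sg]
    have e2 : pp (perm A) n (comb (n + 1) (fun i => mp (n + 1)
        (fun x : G => rp A i * (toA A ((rp A i)⁻¹ * x) : G))
        (lsingle i : ℚ →ₗ[ℚ] ((G ⧸ A) →₀ ℚ))) (sg n z)) = shInc A n (shap A n z) := by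
      have h : (pp (perm A) n) ∘ₗ (comb (n + 1) (fun i => mp (n + 1)
        (fun x : G => rp A i * (toA A ((rp A i)⁻¹ * x) : G))
        (lsingle i : ℚ →ₗ[ℚ] ((G ⧸ A) →₀ ℚ)))) ∘ₗ (sg n) = (shInc A n) ∘ₗ (shap A n) := by
        apply TI_ext
        intro g i m
        unfold shap shInc
        simp only [LinearMap.comp_apply, sg_single, comb_single, mp_single, pp_single]
        congr 1
        · funext k
          simp only [Function.comp_apply, Subgroup.coe_subtype, Subgroup.coe_mul,
            Subgroup.coe_inv]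
          group
        · rw [lsingle_apply, lsingle_apply, perm_single, tQ_apply, LinearMap.id_apply,
            LinearMap.id_apply]
          congr 1
          simp only [Function.comp_apply]
          set b : A := toA A ((rp A i)⁻¹ * Fin.partialProd g 0)
          have e5 : (rp A i * (b : G))⁻¹ • i =
              (QuotientGroup.mk ((rp A i * (b : G))⁻¹ * rp A i) : G ⧸ A) := by
            conv_lhs => rw [← mk_rp A i]
            rw [mk_rp]
            conv_lhs => enter [2]; rw [← mk_rp A i]
            rfl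
          rw [e5, QuotientGroup.eq]
          have : ((rp A i * (b : G))⁻¹ * rp A i)⁻¹ * 1 = (b : G) := by group
          rw [this]
          exact b.2
      exact DFunLike.congr_fun h z
    rw [e1, e2] at key
    have hmem : z - shInc A n (shap A n z) ∈ LinearMap.range (dd (perm A) n) := by
      rw [← neg_sub]
      exact Submodule.neg_mem _ key
    refine ⟨shap A n z, ?_, hmem⟩
    cases n with
    | zero => exact Cyc.zero _ _
    | succ n =>
      rw [cyc_succ] at *
      apply shInc_injective A n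
      rw [← dd_shInc, map_zero]
      obtain ⟨w, hw⟩ := hmem
      have h3 : shInc A (n + 1) (shap A (n + 1) z) = z - dd (perm A) (n + 1) w := by
        rw [hw]; abel
      rw [h3, map_sub, hz, dd_dd, sub_zero]
  · intro g i x
    change rp A (g • i) * (toA A ((rp A (g • i))⁻¹ * (g * x)) : G) =
      g * (rp A i * (toA A ((rp A i)⁻¹ * x) : G))
    set a : A := ⟨(rp A i)⁻¹ * g⁻¹ * rp A (g • i), out_smul A g i⟩ with ha
    have e3 : (rp A (g • i)) = g * rp A i * (a : G) := by
      rw [ha]; group
    have e4 : (rp A i)⁻¹ * x = (a : G) * ((rp A (g • i))⁻¹ * (g * x)) := by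
      rw [ha]; group
    rw [e4, toA_mul, Subgroup.coe_mul, ← mul_assoc (rp A i), ← mul_assoc g, ← mul_assoc g, ← e3]

end Pool.Agent.Y110.KW
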