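import Pool.Agent.Y110.KW.Par
import Pool.Agent.Y483.Present

/-!
Functors of groups with transfers along cocycles of finite support, and the kernel formula for
semidirect products with a support system.
-/

namespace Pool.Agent.Y110.KW

open Monoid Pool.Agent.Y483 CategoryTheory DirectSum Pointwise

/-- The value of the functor on a homomorphism. -/
noncomputable abbrev emap (E : GrpCat.{0} ⥤ ModuleCat.{0} ℚ) {G K : Type} [Group G] [Group K]
    (f : G →* K) : E.obj (GrpCat.of G) →ₗ[ℚ] E.obj (GrpCat.of K) :=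
  (E.map (GrpCat.ofHom f)).hom

/-- A functor has transfers along cocycles of finite support if for each action of a group `G` on a
set `A` and each cocycle `c : G × A → K` with `c(g, a) = 1` for all but finitely many `a`, there is a
linear map `Φ : E(G) → E(K)` with the following property. If `j : G₀ → G` is a homomorphism whose
image acts trivially on `A`, then `λ_a(g) = c(j(g), a)` is a homomorphism `G₀ → K` for each `a`. If
the `λ_a` with `a ∉ Y` are trivial, `Y` finite, then `Φ(E(j) x)` is the sum of the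
`E(λ_a) x - E(1) x`, `a ∈ Y`, where `1 : G₀ → K` is the trivial homomorphism. -/
def HasTransfers (E : GrpCat.{0} ⥤ ModuleCat.{0} ℚ) : Prop :=
  ∀ (G A K : Type) [Group G] [MulAction G A] [Group K] (κ : FinCocycle G A K),
    ∃ Φ : E.obj (GrpCat.of G) →ₗ[ℚ] E.obj (GrpCat.of K),
      ∀ (G₀ : Type) [Group G₀] (j : G₀ →* G) (hj : ∀ g (a : A), j g • a = a) (Y : Finset A),
        (∀ a ∉ Y, ∀ g, κ.c (j g) a = 1) → ∀ x : E.obj (GrpCat.of G₀),
          Φ (emap E j x) = ∑ a ∈ Y, (emap E (κ.label j hj a) x - emap E (1 : G₀ →* K) x)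

theorem emap_comp (E : GrpCat.{0} ⥤ ModuleCat.{0} ℚ) {G K L : Type} [Group G] [Group K] [Group L]
    (g : K →* L) (f : G →* K) (x : E.obj (GrpCat.of G)) :
    emap E (g.comp f) x = emap E g (emap E f x) := by
  have h : E.map (GrpCat.ofHom (g.comp f)) = E.map (GrpCat.ofHom f) ≫ E.map (GrpCat.ofHom g) := by
    rw [← E.map_comp]
    rfl
  exact congrArg (fun k => k.hom x) h

variable {E : GrpCat.{0} ⥤ ModuleCat.{0} ℚ}

/-- The total map on `⨁_{j ∈ J} H_j(G; ℚ)`. -/
noncomputable def tot (α : Fam E) (J : Set ℕ) (G : Type) [Group G] :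
    HJ J G →ₗ[ℚ] E.obj (GrpCat.of G) :=
  DirectSum.toModule ℚ J _ fun j : J => ((α j).app (GrpCat.of G)).hom

theorem tot_eq (α : Fam E) (J : Set ℕ) {G : Type} [Group G] (x : HJ J G) :
    tot α J G x = total α J (GrpCat.of G) x := rfl

theorem tot_nat (α : Fam E) (J : Set ℕ) {G K : Type} [Group G] [Group K] (f : G →* K)
    (x : HJ J G) : emap E f (tot α J G x) = tot α J K (hjMap J f x) := total_nat α J f x

theorem tot_map (α : Fam E) (J : Set ℕ) {G K : Type} [Group G] [Group K] (f : G →* K)
    {x : HJ J G} (hx : tot α J G x = 0) : tot α J K (hjMap J f x) = 0 := by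
  rw [← tot_nat, hx, map_zero]

theorem kerSum_eq (α : Fam E) (J : Set ℕ) (G : Type) [Group G] :
    kerSum α J (GrpCat.of G) = LinearMap.ker (tot α J G) := rfl

theorem imSum_eq (α : Fam E) (J : Set ℕ) {G K : Type} [Group G] [Group K] (f : G →* K) :
    imSum α J (GrpCat.ofHom f) = (LinearMap.ker (tot α J G)).map (hjMap J f) := rfl

/-- If the assembly map of `G` kills the image of a reduced class of `G₀`, the assembly map of `K`
kills the sum of the images under the labels. -/
theorem key' (hE : HasTransfers E) (α : Fam E) (J : Set ℕ) {G A K G₀ : Type} [Group G]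
    [MulAction G A] [Group K] [Group G₀] (κ : FinCocycle G A K)
    (j : G₀ →* G) (hj : ∀ g (a : A), j g • a = a) (Y : Finset A)
    (hY : ∀ a ∉ Y, ∀ g, κ.c (j g) a = 1) (x : HJ J G₀) (hx0 : hjMap J (1 : G₀ →* Unit) x = 0)
    (hx : tot α J G (hjMap J j x) = 0) :
    tot α J K (∑ a ∈ Y, hjMap J (κ.label j hj a) x) = 0 := by
  obtain ⟨Φ, hΦ⟩ := hE G A K κ
  have h1 := hΦ G₀ j hj Y hY (tot α J G₀ x)
  rw [tot_nat, hx, map_zero] at h1
  rw [map_sum, h1]
  apply Finset.sum_congr rfl
  intro a _
  have h2 : emap E (1 : G₀ →* K) (tot α J G₀ x) = 0 := by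
    rw [tot_nat]
    have : (1 : G₀ →* K) = (1 : Unit →* K).comp (1 : G₀ →* Unit) := rfl
    rw [this, hjMap_comp, hx0, map_zero, map_zero]
  rw [h2, sub_zero, tot_nat]

section Semi

variable {Γ N : Type} [Group Γ] [Group N] {φ : Γ →* MulAut N}

/-- The part of the kernel coming from the parts of `N` supported on finite sets. -/
noncomputable def baseK (α : Fam E) (J : Set ℕ) (ss : SupportSystem φ) :
    Submodule ℚ (HJ J (N ⋊[φ] Γ)) :=
  ⨆ F : Finset Γ, (LinearMap.ker (tot α J (ss.part (F : Set Γ)))).map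
    (hjMap J (ss.partIncl (F : Set Γ)))

theorem base_kernel' (hE : HasTransfers E) (α : Fam E) (J : Set ℕ) (ss : SupportSystem φ)
    (F₀ : Set Γ) (hF₀ : F₀.Finite) (x : HJ J N) (hx0 : hjMap J (1 : N →* Unit) x = 0)
    (hx : tot α J (N ⋊[φ] Γ) (hjMap J (ss.incl F₀) x) = 0) :
    hjMap J (ss.incl F₀) x ∈ baseK α J ss := by
  classical
  rw [← Submodule.Quotient.mk_eq_zero]
  have hmain := eq_zero_of_translates (V := (HJ J (N ⋊[φ] Γ)) ⧸ baseK α J ss)
    (fun S : Finset Γ => (baseK α J ss).mkQ (hjMap J (ss.incl ((S : Set Γ) ∩ F₀)) x))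
    hF₀.toFinset ?_ ?_ ?_
  · simpa using hmain
  · intro S
    simp [Set.inter_assoc]
  · have : ss.incl (((∅ : Finset Γ) : Set Γ) ∩ F₀) =
        (1 : Unit →* N ⋊[φ] Γ).comp (1 : N →* Unit) := by
      ext1 n
      simp only [SupportSystem.incl, MonoidHom.comp_apply, Finset.coe_empty, Set.empty_inter,
        ss.empty, map_one, MonoidHom.one_apply]
    rw [this, hjMap_comp, hx0, map_zero, map_zero]
  · intro T Y hY
    have hTfin : (T : Set Γ).Finite := T.finite_toSet
    have hj : ∀ (g : N) (a : Pt φ), ss.incl F₀ g • a = a := by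
      intro g a
      exact one_mul (show Γ from a)
    have hlab : ∀ a ∉ (Y : Finset (Pt φ)), ∀ g : N, (ss.cocycle T hTfin).c (ss.incl F₀ g) a = 1 := by
      intro a ha g
      apply Subtype.ext
      change ss.e T (φ ((1 : Γ) * (show Γ from a))⁻¹ (ss.e F₀ g)) = 1
      rw [one_mul, ss.equivariant]
      rw [ss.inter]
      have hd : (T : Set Γ) ∩ ((show Γ from a)⁻¹ • F₀) = ∅ := by
        rw [← Set.disjoint_iff_inter_eq_empty, Set.disjoint_left]
        intro t ht ht'
        have h2 := Finset.disjoint_left.mp (hY a ha)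
          (Finset.smul_mem_smul_finset (a := (show Γ from a)) ht)
        apply h2
        rw [Set.mem_inv_smul_set_iff] at ht'
        simpa using ht'
      rw [hd, ss.empty]
    have hk := key' hE α J (ss.cocycle T hTfin) (ss.incl F₀) hj Y hlab x hx0 hx
    have hmem : hjMap J (ss.partIncl (T : Set Γ)) (∑ a ∈ (Y : Finset (Pt φ)),
        hjMap J ((ss.cocycle T hTfin).label (ss.incl F₀) hj a) x) ∈ baseK α J ss :=
      Submodule.mem_iSup_of_mem T (Submodule.mem_map_of_mem (LinearMap.mem_ker.mpr hk))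
    have hk4 : ∑ a ∈ (Y : Finset (Pt φ)), (baseK α J ss).mkQ (hjMap J (ss.partIncl (T : Set Γ))
        (hjMap J ((ss.cocycle T hTfin).label (ss.incl F₀) hj a) x)) = 0 := by
      rw [← map_sum, ← map_sum, Submodule.mkQ_apply, Submodule.Quotient.mk_eq_zero]
      exact hmem
    refine Eq.trans ?_ hk4
    refine Finset.sum_congr (ι := Γ) rfl ?_
    intro y _
    rw [← hjMap_comp, ← hjMap_conj J _ ((SemidirectProduct.inr y : N ⋊[φ] Γ)⁻¹)]
    congr 3
    ext1 n
    simp only [conjHom, MonoidHom.comp_apply, MulEquiv.coe_toMonoidHom, MulAut.conj_apply, inv_inv]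
    rw [Finset.coe_smul_finset, ss.incl_smul]
    change SemidirectProduct.inl (ss.e T (φ y⁻¹ (ss.e F₀ n))) =
      SemidirectProduct.inl (ss.e T (φ ((1 : Γ) * y)⁻¹ (ss.e F₀ n)))
    rw [one_mul]

/-- **Kernel formula** for semidirect products with a support system and functors with
transfers. -/
theorem semi_kernel (hE : HasTransfers E) (α : Fam E) (J : Set ℕ) (ss : SupportSystem φ) :
    LinearMap.ker (tot α J (N ⋊[φ] Γ)) =
      (LinearMap.ker (tot α J Γ)).map (hjMap J (SemidirectProduct.inr : Γ →* N ⋊[φ] Γ)) ⊔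
        baseK α J ss := by
  apply le_antisymm
  · intro x hx
    rw [LinearMap.mem_ker] at hx
    set y := hjMap J SemidirectProduct.rightHom x with hy
    have hy0 : tot α J Γ y = 0 := tot_map α J _ hx
    set x' := x - hjMap J SemidirectProduct.inr y with hx'
    have h1 : hjMap J SemidirectProduct.rightHom x' = 0 := by
      rw [hx', map_sub, ← hjMap_comp J SemidirectProduct.rightHom SemidirectProduct.inr,
        SemidirectProduct.rightHom_comp_inr, hjMap_id, ← hy, sub_self]
    have h2 : tot α J (N ⋊[φ] Γ) x' = 0 := by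
      rw [hx', map_sub, hx, ← tot_nat, hy0, map_zero, sub_self]
    obtain ⟨S, b, hb, hbx⟩ := total_from_base ss J x' h1
    have h3 := base_kernel' hE α J ss (S : Set Γ) S.finite_toSet b hb (by rw [hbx]; exact h2)
    rw [hbx] at h3
    have h6 : x = hjMap J SemidirectProduct.inr y + x' := by rw [hx']; abel
    rw [h6]
    apply Submodule.add_mem_sup
    · exact Submodule.mem_map_of_mem (LinearMap.mem_ker.mpr hy0)
    · exact h3
  · apply sup_le
    · rw [Submodule.map_le_iff_le_comap]
      intro y hy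
      exact tot_map α J _ hy
    · apply iSup_le
      intro F
      rw [Submodule.map_le_iff_le_comap]
      intro y hy
      exact tot_map α J _ hy

/-- The kernel of `N ⋊ Γ` is generated by the images of the kernels of `Γ` and `N`. -/
theorem semi_kernel2 (hE : HasTransfers E) (α : Fam E) (J : Set ℕ) (ss : SupportSystem φ) :
    kerSum α J (GrpCat.of (N ⋊[φ] Γ)) =
      imSum α J (GrpCat.ofHom (SemidirectProduct.inr : Γ →* N ⋊[φ] Γ)) ⊔
        imSum α J (GrpCat.ofHom (SemidirectProduct.inl : N →* N ⋊[φ] Γ)) := by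
  apply le_antisymm
  · rw [kerSum_eq, imSum_eq, imSum_eq, semi_kernel hE α J ss]
    apply sup_le_sup le_rfl
    apply iSup_le
    intro F
    rintro _ ⟨y, hy, rfl⟩
    refine ⟨hjMap J (ss.e (F : Set Γ)).range.subtype y, tot_map α J _ hy, ?_⟩
    rw [← hjMap_comp]
    rfl
  · exact sup_le (imSum_le α J _) (imSum_le α J _)

end Semi

end Pool.Agent.Y110.KW
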